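import Pool.Agent.H71.PX.Targets

/-! Board pfc, row Z5 (helper79). -/

set_option autoImplicit false

namespace Pool.Agent.H79.PFC

open Pool.Agent.H69.Sp Pool.Agent.H8.PL Pool.Agent.H71.PX

theorem pf_Z5 (ra : T_RA) (rb : T_RB) (z2 : T_Z2) : T_Z5 := by
  intro α Q m U Hh Vv n v h I htop
  have hQ : Nonempty Q := by
    obtain ⟨q, -⟩ := (h.uN (I.num 0 (Nat.zero_le v)) (I.num 0 (Nat.zero_le v))).2.2.2.2.2.1
    exact ⟨q⟩
  have hex : ∀ i j, ∃ q, i ≤ v → j ≤ v → m.T q (n i) (n j) := by
    intro i j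
    by_cases hij : i ≤ v ∧ j ≤ v
    · obtain ⟨q, hq⟩ := (h.uN (I.num i hij.1) (I.num j hij.2)).2.2.2.2.2.1
      exact ⟨q, fun _ _ => hq⟩
    · obtain ⟨q⟩ := hQ
      exact ⟨q, fun h1 h2 => absurd ⟨h1, h2⟩ hij⟩
  choose t ht using hex
  have hZr : ∀ x ≤ v, (m.Zr (n x) ↔ x = 0) := by
    intro x hx
    constructor
    · intro hz
      by_contra hx0
      exact (h.uN (I.num 0 (Nat.zero_le v)) (I.num x hx)).2.2.2.1 hz
        (I.ord 0 x (Nat.pos_of_ne_zero hx0) hx)
    · rintro rfl
      exact I.zr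
  have hTp : ∀ x ≤ v, (m.Tp (n x) ↔ x = v) := by
    intro x hx
    constructor
    · intro hz
      by_contra hxv
      exact I.top x (by omega) hz
    · rintro rfl
      exact htop
  have hS : ∀ x < v, m.S (n x) (n (x + 1)) := I.suc
  -- the check at a ground pair
  have hgr : ∀ i j, i < v → j < i → ∃ g, (∀ q, (m.U1 q g ↔ m.T q (n (i + 1)) (n j)) ∧
      (m.U2 q g ↔ m.T q (n j) (n (i + 1)))) ∧
      ∀ q q', (m.T q (n i) (n j) → m.U1 q' g → Hh q q') ∧
        (m.T q (n j) (n i) → m.U2 q' g → Vv q q') := by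
    intro i j hi hj
    obtain ⟨⟨g, hg, hp1, hp2, hq⟩, -⟩ := z2 α Q m U Hh Vv n v h I (i + 1) (by omega) j (by omega)
    refine ⟨g, hq, ?_⟩
    obtain ⟨-, b2, b3⟩ := rb α Q m U Hh Vv n v h I g hg.1
    obtain ⟨-, a2⟩ := ra α Q m U Hh Vv n v h I g hg.1
    have hL : m.L false (n i) g := b2 (i + 1) (by omega) false hp1 i (by omega)
    have hR : m.R false (n i) g := ((a2 i hi hL false).1).1 hp1
    have hP : ¬ m.P true (n i) g := by
      intro hp
      have := b3 i j (by omega) (by omega) true hp hp2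
      omega
    obtain ⟨z, hz1, hz2, hz3⟩ := h.til (I.num i (by omega)) hg hR hP
    have hzj : z = n j := I.s j (by omega) true g z hg.1 hz1 hp2 hz2
    rw [hzj] at hz3
    exact hz3
  refine ⟨t, ?_, ?_, ?_⟩
  · intro x hx y hy
    refine (h.uN (I.num x (by omega)) (I.num y (by omega))).2.2.2.2.2.2.1 _
      (ht x y (by omega) (by omega)) _ _ _ _ ?_ ?_ ?_ ?_
    · rw [hZr x (by omega), decide_eq_true_iff]
    · rw [hTp x (by omega), decide_eq_true_iff]
      omega
    · rw [hZr y (by omega), decide_eq_true_iff]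
    · rw [hTp y (by omega), decide_eq_true_iff]
      omega
  · intro x y hx hy
    rcases lt_trichotomy x y with hxy | hxy | hxy
    · obtain ⟨z, hz1, hz2, -, hz3⟩ := h.nn (I.num x (by omega)) (I.num y (by omega))
        (I.ord x y hxy (by omega))
      have hz : z = n (x + 1) := I.usuc x (by omega) z hz1 hz2
      rw [hz] at hz3
      exact (hz3 _ _).1 (ht x y (by omega) (by omega)) (ht (x + 1) y (by omega) (by omega))
    · subst hxy
      exact ((h.uN (I.num x (by omega)) (I.num (x + 1) (by omega))).2.2.2.2.2.2.2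
        (hS x (by omega)) _ _).1 (ht x x (by omega) (by omega))
        (ht (x + 1) x (by omega) (by omega))
    · obtain ⟨g, hg1, hg2⟩ := hgr x y (by omega) hxy
      exact (hg2 _ _).1 (ht x y (by omega) (by omega))
        ((hg1 _).1.2 (ht (x + 1) y (by omega) (by omega)))
  · intro x y hx hy
    rcases lt_trichotomy y x with hxy | hxy | hxy
    · obtain ⟨z, hz1, hz2, -, hz3⟩ := h.nn (I.num y (by omega)) (I.num x (by omega))
        (I.ord y x hxy (by omega))
      have hz : z = n (y + 1) := I.usuc y (by omega) z hz1 hz2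
      rw [hz] at hz3
      exact (hz3 _ _).2 (ht x y (by omega) (by omega)) (ht x (y + 1) (by omega) (by omega))
    · subst hxy
      exact ((h.uN (I.num y (by omega)) (I.num (y + 1) (by omega))).2.2.2.2.2.2.2
        (hS y (by omega)) _ _).2 (ht y y (by omega) (by omega))
        (ht y (y + 1) (by omega) (by omega))
    · obtain ⟨g, hg1, hg2⟩ := hgr y x (by omega) hxy
      exact (hg2 _ _).2 (ht x y (by omega) (by omega))
        ((hg1 _).2.2 (ht x (y + 1) (by omega) (by omega)))

end Pool.Agent.H79.PFC
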